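import Mathlib
import Pool.Agent.H200Z.Defs
import Pool.Agent.H200Z.Data0

set_option autoImplicit false

namespace Pool.Agent.Results.MP_9638d9_co.BConeNotLC

open Pool.Agent.H200Z

/-- There is a triangulated 4-ball that is non-evasive and not locally constructible. -/
theorem result : ∃ (n : ℕ) (K : Finset (Finset (Fin n))),
    IsBall 4 K ∧ NonEvasive K ∧ ¬ IsLC 4 K :=
  ⟨15, _, cone_ball, cone_nonEvasive, cone_not_LC⟩

end Pool.Agent.Results.MP_9638d9_co.BConeNotLC
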